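import Pool.Agent.H7.HD.Targets11
import Pool.Agent.H7.HD.All

/-!
# MP_e37c09_lc: tools for the measures given by `(T, g)` and an atom
-/

set_option autoImplicit false

open Ordinal Cardinal Order Set
open scoped ZFSet

universe u

namespace Pool.Agent.H90.HDA.WZ

open _root_.HD

variable {en : Ordinal.{u} → ZFSet.{u}} {t : Ordinal.{u} → Ordinal.{u} → Ordinal.{u}}
  {X : Set Ordinal.{u}} {ν : Ordinal.{u}} {T : Set Ordinal.{u}} {g : Ordinal.{u} → Ordinal.{u}}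
  {c : Ordinal.{u}}

/-- the set `T_c` -/
def Tc (en : Ordinal.{u} → ZFSet.{u}) (t : Ordinal.{u} → Ordinal.{u} → Ordinal.{u})
    (T : Set Ordinal.{u}) (g : Ordinal.{u} → Ordinal.{u}) (c : Ordinal.{u}) : Set Ordinal.{u} :=
  {γ | γ ∈ T ∧ t γ (g γ) ∈ E en c}

theorem mem_wz {x : ZFSet.{u}} : x ∈ wz en ν T g t c ↔ x ⊆ ν.toZFSet ∧ HOD x ∧
    ¬ Pos om ν {γ | γ ∈ T ∧ t γ (g γ) ∈ E en c ∧ (g γ).toZFSet ∉ x} := by
  unfold wz
  rw [ZFSet.mem_sep, ZFSet.mem_powerset]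

theorem empty_null {μ ρ : Ordinal.{u}} (hρ : IsSuccLimit ρ) {Y : Set Ordinal.{u}}
    (h : ∀ b < ρ, b ∉ Y) : ¬ Pos μ ρ Y := by
  intro hP
  obtain ⟨b, hb, -, hbY, -⟩ := hP univ ⟨fun a ha => ⟨succ a, hρ.succ_lt ha, lt_succ a, trivial⟩,
    fun _ _ _ _ => trivial⟩
  exact h b hb hbY

theorem sub_os (Y : Set Ordinal.{u}) : os ν Y ⊆ ν.toZFSet := fun z hz => by
  obtain ⟨a, ha, -, rfl⟩ := mem_os.1 hz
  exact toZFSet_mem_toZFSet_iff.2 ha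

/-- membership of the definable sets in the filter -/
theorem os_mem (hlt : ∀ γ ∈ T, γ < ν → g γ < ν) {Y : Set Ordinal.{u}} (hY : DS Y) :
    os ν Y ∈ wz en ν T g t c ↔ ¬ Pos om ν {γ | γ ∈ Tc en t T g c ∧ g γ ∉ Y} := by
  rw [mem_wz]
  have h : Pos om ν {γ | γ ∈ T ∧ t γ (g γ) ∈ E en c ∧ (g γ).toZFSet ∉ os ν Y} ↔
      Pos om ν {γ | γ ∈ Tc en t T g c ∧ g γ ∉ Y} := by
    refine Pos.congr fun γ hγ => ?_
    constructor
    · rintro ⟨h1, h2, h3⟩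
      exact ⟨⟨h1, h2⟩, fun h4 => h3 (ord_mem_os.2 ⟨hlt γ h1 hγ, h4⟩)⟩
    · rintro ⟨⟨h1, h2⟩, h3⟩
      exact ⟨h1, h2, fun h4 => h3 (ord_mem_os.1 h4).2⟩
  rw [h]
  exact ⟨fun h => h.2.2, fun h => ⟨sub_os Y, hod_os hY ν, h⟩⟩

/-- the set of the pairs in a definable relation -/
theorem ds_rel (ht : Prf t) {P : Ordinal.{u} → Ordinal.{u} → Prop} (hP : DR P) :
    DS {p | ∃ a, ∃ b, p = t a b ∧ P a b} := by
  refine DO.ex (R := fun a w => ∃ b, w 0 = t a b ∧ P a b) ?_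
  refine DO.ex (R := fun b w => w 1 = t (w 0) b ∧ P (w 0) b) ?_
  refine DO.and ?_ (hP.s2 1 0)
  exact (ht.dfn.ren fun n => if n = 0 then 1 else if n = 1 then 0 else n).congr fun w => by simp

theorem mem_rel (ht : Prf t) {P : Ordinal.{u} → Ordinal.{u} → Prop} (a b : Ordinal.{u}) :
    t a b ∈ {p | ∃ a, ∃ b, p = t a b ∧ P a b} ↔ P a b := by
  constructor
  · rintro ⟨a', b', h1, h2⟩
    obtain ⟨rfl, rfl⟩ := ht.inj _ _ _ _ h1
    exact h2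
  · intro h
    exact ⟨a, b, rfl, h⟩

/-- the code of a definable relation -/
theorem code_rel (hen : EN en) (ht : Prf t) {P : Ordinal.{u} → Ordinal.{u} → Prop} (hP : DR P)
    (β : Ordinal.{u}) : ∃ z, ∀ a b, t a b < β → (t a b ∈ E en z ↔ P a b) := by
  obtain ⟨z, hz⟩ := (All.ea en hen).2.2.1 _ (ds_rel ht hP) β
  refine ⟨z, fun a b hab => ?_⟩
  rw [hz]
  constructor
  · intro h
    exact (mem_rel ht a b).1 h.1
  · intro h
    exact ⟨(mem_rel ht a b).2 h, hab⟩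

/-- the conditions for a normal measure -/
theorem nme_of (hen : EN en) (ht : Prf t) (hX : DS X) {K : Cardinal.{u}} (hK : ℵ₀ ≤ K)
    (hνK : ν ≤ K.ord) (hlim : IsSuccLimit ν) (hcof : ℵ₀ < ν.cof) (hLN : LN en t X ν T g)
    (hhod : HOD (wz en ν T g t c)) (hpos : Pos om ν (Tc en t T g c))
    (hult : ∀ Y, DS Y → ¬ (Pos om ν {γ | γ ∈ Tc en t T g c ∧ g γ ∈ Y} ∧
      Pos om ν {γ | γ ∈ Tc en t T g c ∧ g γ ∉ Y}))
    (hnrm : ∀ R : Ordinal.{u} → Ordinal.{u} → Prop, DR R →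
      (∀ a < ν, ¬ Pos om ν {γ | γ ∈ Tc en t T g c ∧ ¬ R a (g γ)}) →
        ¬ Pos om ν {γ | γ ∈ Tc en t T g c ∧ ∃ a < γ, ¬ R a (g γ)}) :
    NMe ν (wz en ν T g t c) ∧ os ν X ∈ wz en ν T g t c := by
  have hlt : ∀ γ ∈ T, γ < ν → g γ < ν := fun γ h1 h2 => (hLN.lt γ h1 h2).2.1
  refine ⟨⟨hlim, hhod, fun x hx => (mem_wz.1 hx).1, ?_, ?_, ?_, ?_, ?_⟩, ?_⟩
  · intro Y hY
    have hYc : DS Yᶜ := hY.not
    rw [os_mem hlt hY, os_mem hlt hYc]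
    constructor
    · intro h1 h2
      refine null_union All.va hcof h1 h2 (hpos.mono fun γ _ hγ _ => ?_)
      by_cases h : g γ ∈ Y
      · exact Or.inr ⟨hγ, fun h3 => h3 h⟩
      · exact Or.inl ⟨hγ, h⟩
    · intro h1 h2
      refine h1 fun h3 => hult Y hY ⟨h3.mono fun γ _ hγ _ => ⟨hγ.1, ?_⟩, h2⟩
      by_contra h4
      exact hγ.2 h4
  · intro Y Z hY hZ h1 h2
    rw [os_mem hlt hY] at h1
    rw [os_mem hlt hZ]
    intro h3
    exact h1 (h3.mono fun γ hγ h4 _ => ⟨h4.1, fun h5 => h4.2 (h2 _ (hlt γ h4.1.1 hγ) h5)⟩)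
  · intro Y Z hY hZ h1 h2
    have hYZ : DS (Y ∩ Z) := hY.and hZ
    rw [os_mem hlt hY] at h1
    rw [os_mem hlt hZ] at h2
    rw [os_mem hlt hYZ]
    intro h3
    refine null_union All.va hcof h1 h2 (h3.mono fun γ _ hγ _ => ?_)
    by_cases h : g γ ∈ Y
    · exact Or.inr ⟨hγ.1, fun h4 => hγ.2 ⟨h, h4⟩⟩
    · exact Or.inl ⟨hγ.1, h⟩
  · intro a ha
    have hD : DS {b | a < b} := DO.gtc 0 a
    rw [os_mem hlt hD]
    intro h3
    refine All.vb om ν a hlim ha (h3.mono fun γ hγ h4 _ => ?_)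
    have h5 : ¬ a < g γ := h4.2
    exact (hLN.lt γ h4.1.1 hγ).1.trans_le (not_lt.1 h5)
  · intro R hR hsec
    have hD : DS {b | ∀ a < b, R a b} := DO.allLt (R := fun x w => R x (w 0)) 0 hR
    rw [os_mem hlt hD]
    intro hP
    obtain ⟨z, hz⟩ := code_rel hen ht hR K.ord
    have h1 := hLN.gd z
    have h2 := hnrm R hR fun a ha => by
      have h3 := hsec a ha
      rw [os_mem hlt (DO.sect1 hR a)] at h3
      exact h3
    refine null_union All.va hcof h1 h2 (hP.mono fun γ hγ h4 _ => ?_)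
    obtain ⟨h5, h6⟩ := h4
    obtain ⟨h7, h8, -⟩ := hLN.lt γ h5.1 hγ
    have hz' : ∀ a < g γ, (t a (g γ) ∈ E en z ↔ R a (g γ)) := fun a ha =>
      hz a (g γ) (ht.lt K hK a ((ha.trans h8).trans_le hνK) _ (h8.trans_le hνK))
    by_cases h9 : ∃ a < γ, ¬ R a (g γ)
    · exact Or.inr ⟨h5, h9⟩
    · push Not at h9
      refine Or.inl ⟨h5.1, fun a ha => (hz' a (ha.trans h7)).2 (h9 a ha), ?_⟩
      by_contra h10
      push Not at h10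
      exact h6 fun a ha => (hz' a ha).1 (h10 a ha)
  · rw [os_mem hlt hX]
    exact empty_null hlim fun γ hγ h => h.2 (hLN.lt γ h.1.1 hγ).2.2

/-- the set `T_c` cannot be split by definable sets -/
theorem ult_K (hen : EN en) (ht : Prf t) {K : Cardinal.{u}} (hK : ℵ₀ ≤ K)
    (hlt : ∀ γ ∈ T, γ < K.ord → g γ < K.ord) (hat : AtP en (Pg K.ord T g t) c)
    (Y : Set Ordinal.{u}) (hY : DS Y) :
    ¬ (Pos om K.ord {γ | γ ∈ Tc en t T g c ∧ g γ ∈ Y} ∧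
      Pos om K.ord {γ | γ ∈ Tc en t T g c ∧ g γ ∉ Y}) := by
  rintro ⟨h1, h2⟩
  obtain ⟨z, hz⟩ := code_rel hen ht (P := fun _ b => b ∈ Y) (hY.s1 (X := fun b => b ∈ Y) 1) K.ord
  have hz' : ∀ γ < K.ord, γ ∈ T → (t γ (g γ) ∈ E en z ↔ g γ ∈ Y) := fun γ hγ hT =>
    hz _ _ (ht.lt K hK γ hγ _ (hlt γ hT hγ))
  refine hat.2 z ⟨h1.mono fun γ hγ h3 _ => ?_, h2.mono fun γ hγ h3 _ => ?_⟩
  · exact ⟨h3.1.1, h3.1.2, (hz' γ hγ h3.1.1).2 h3.2⟩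
  · exact ⟨h3.1.1, h3.1.2, fun h4 => h3.2 ((hz' γ hγ h3.1.1).1 h4)⟩

end Pool.Agent.H90.HDA.WZ
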