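import Pool.Agent.H7.HD.Targets11
import Pool.Agent.H54.CL.Law

/-!
# MP_e37c09_lc, module HS: local enumeration of the ordinals below the successor in HOD
-/

set_option autoImplicit false

open Ordinal Cardinal Order Set
open scoped ZFSet

universe u

namespace Pool.Agent.H90.HDA.HS

open _root_.HD Pool.Agent.H54.CL

/-- the collapse of a definable relation is definable (the proof is that of
`Pool.Agent.H54.CL.lt_hs_of_code`) -/
theorem od_cod {t : Ordinal.{u} → Ordinal.{u} → Ordinal.{u}}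
    (ht : DO fun w => w 2 = t (w 0) (w 1)) {ξ β : Ordinal.{u}} {y : ZFSet.{u}}
    {f : Ordinal.{u} → Ordinal.{u}} (hy : OD y) (h : Cod t ξ β y f) :
    OD (rs ξ β fun a b => b = f a) := by
  obtain ⟨h1, h2, h3⟩ := h
  have hr : OD (rs ξ ξ fun a b => (t a b).toZFSet ∈ y) := od_rs (dr_mem ht hy) ξ ξ
  obtain ⟨r, hrd⟩ : ∃ r, r = rs ξ ξ fun a b => (t a b).toZFSet ∈ y := ⟨_, rfl⟩
  rw [← hrd] at hr
  obtain ⟨g, hgd⟩ : ∃ g, g = rs ξ β fun a b => b = f a := ⟨_, rfl⟩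
  have hrm : ∀ a < ξ, ∀ b < ξ, (ZFSet.pair a.toZFSet b.toZFSet ∈ r ↔ f a < f b) := by
    intro a ha b hb
    rw [hrd, pair_mem_rs, ← h3 a ha b hb]
    exact ⟨fun h => h.2.2, fun h => ⟨ha, hb, h⟩⟩
  have hg : OD g := by
    refine OD.of_dz ?_
    refine DZ.congr (P := fun v => (∀ p ∈ v 0, ∃ a ∈ ξ.toZFSet, ∃ b ∈ β.toZFSet,
        p = ZFSet.pair a b) ∧
      (∀ a ∈ ξ.toZFSet, ∃ b ∈ β.toZFSet, ZFSet.pair a b ∈ v 0) ∧
      (∀ b ∈ β.toZFSet, ∃ a ∈ ξ.toZFSet, ZFSet.pair a b ∈ v 0) ∧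
      (∀ a ∈ ξ.toZFSet, ∀ a' ∈ ξ.toZFSet, ∀ b ∈ β.toZFSet, ∀ b' ∈ β.toZFSet,
        ZFSet.pair a b ∈ v 0 → ZFSet.pair a' b' ∈ v 0 → (ZFSet.pair a a' ∈ r ↔ b ∈ b')))
      ?_ fun v => ?_
    · refine DZ.od (R := fun X v => (∀ p ∈ v 0, ∃ a ∈ X, ∃ b ∈ β.toZFSet,
          p = ZFSet.pair a b) ∧
        (∀ a ∈ X, ∃ b ∈ β.toZFSet, ZFSet.pair a b ∈ v 0) ∧
        (∀ b ∈ β.toZFSet, ∃ a ∈ X, ZFSet.pair a b ∈ v 0) ∧
        (∀ a ∈ X, ∀ a' ∈ X, ∀ b ∈ β.toZFSet, ∀ b' ∈ β.toZFSet,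
          ZFSet.pair a b ∈ v 0 → ZFSet.pair a' b' ∈ v 0 → (ZFSet.pair a a' ∈ r ↔ b ∈ b')))
        (OD.ordinal ξ) ?_
      refine DZ.od (R := fun Y v => (∀ p ∈ v 1, ∃ a ∈ v 0, ∃ b ∈ Y,
          p = ZFSet.pair a b) ∧
        (∀ a ∈ v 0, ∃ b ∈ Y, ZFSet.pair a b ∈ v 1) ∧
        (∀ b ∈ Y, ∃ a ∈ v 0, ZFSet.pair a b ∈ v 1) ∧
        (∀ a ∈ v 0, ∀ a' ∈ v 0, ∀ b ∈ Y, ∀ b' ∈ Y,
          ZFSet.pair a b ∈ v 1 → ZFSet.pair a' b' ∈ v 1 → (ZFSet.pair a a' ∈ r ↔ b ∈ b')))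
        (OD.ordinal β) ?_
      refine DZ.od (R := fun Z v => (∀ p ∈ v 2, ∃ a ∈ v 1, ∃ b ∈ v 0,
          p = ZFSet.pair a b) ∧
        (∀ a ∈ v 1, ∃ b ∈ v 0, ZFSet.pair a b ∈ v 2) ∧
        (∀ b ∈ v 0, ∃ a ∈ v 1, ZFSet.pair a b ∈ v 2) ∧
        (∀ a ∈ v 1, ∀ a' ∈ v 1, ∀ b ∈ v 0, ∀ b' ∈ v 0,
          ZFSet.pair a b ∈ v 2 → ZFSet.pair a' b' ∈ v 2 → (ZFSet.pair a a' ∈ Z ↔ b ∈ b')))
        hr ?_
      refine DZ.and ?_ (DZ.and ?_ (DZ.and ?_ ?_))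
      · exact DZ.allMem (R := fun p v => ∃ a ∈ v 2, ∃ b ∈ v 1, p = ZFSet.pair a b) 3
          (DZ.exMem (R := fun a v => ∃ b ∈ v 2, v 0 = ZFSet.pair a b) 3
            (DZ.exMem (R := fun b v => v 1 = ZFSet.pair (v 0) b) 3 (loc_pair 2 1 0).dz))
      · exact DZ.allMem (R := fun a v => ∃ b ∈ v 1, ZFSet.pair a b ∈ v 3) 2
          (DZ.exMem (R := fun b v => ZFSet.pair (v 0) b ∈ v 4) 2 (loc_pmem 1 0 5).dz)
      · exact DZ.allMem (R := fun b v => ∃ a ∈ v 2, ZFSet.pair a b ∈ v 3) 1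
          (DZ.exMem (R := fun a v => ZFSet.pair a (v 0) ∈ v 4) 3 (loc_pmem 0 1 5).dz)
      · refine DZ.allMem (R := fun a v => ∀ a' ∈ v 2, ∀ b ∈ v 1, ∀ b' ∈ v 1,
          ZFSet.pair a b ∈ v 3 → ZFSet.pair a' b' ∈ v 3 → (ZFSet.pair a a' ∈ v 0 ↔ b ∈ b')) 2 ?_
        refine DZ.allMem (R := fun a' v => ∀ b ∈ v 2, ∀ b' ∈ v 2,
          ZFSet.pair (v 0) b ∈ v 4 → ZFSet.pair a' b' ∈ v 4 →
            (ZFSet.pair (v 0) a' ∈ v 1 ↔ b ∈ b')) 3 ?_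
        refine DZ.allMem (R := fun b v => ∀ b' ∈ v 3,
          ZFSet.pair (v 1) b ∈ v 5 → ZFSet.pair (v 0) b' ∈ v 5 →
            (ZFSet.pair (v 1) (v 0) ∈ v 2 ↔ b ∈ b')) 3 ?_
        refine DZ.allMem (R := fun b' v =>
          ZFSet.pair (v 2) (v 0) ∈ v 6 → ZFSet.pair (v 1) b' ∈ v 6 →
            (ZFSet.pair (v 2) (v 1) ∈ v 3 ↔ (v 0) ∈ b')) 4 ?_
        exact (loc_pmem 3 1 7).dz.imp ((loc_pmem 2 0 7).dz.imp
          ((loc_pmem 3 2 4).dz.iff (DZ.mem 1 0)))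
    · constructor
      · intro hv
        rw [hv, hgd]
        refine ⟨fun p hp => ?_, fun a ha => ?_, fun b hb => ?_, fun a ha a' ha' b hb b' hb' h4 h5 => ?_⟩
        · obtain ⟨a, ha, b, hb, -, rfl⟩ := mem_rs.1 hp
          exact ⟨_, toZFSet_mem_toZFSet_iff.2 ha, _, toZFSet_mem_toZFSet_iff.2 hb, rfl⟩
        · obtain ⟨a', ha', rfl⟩ := mem_toZFSet_iff.1 ha
          exact ⟨_, toZFSet_mem_toZFSet_iff.2 (h1 a' ha'), pair_mem_rs.2 ⟨ha', h1 a' ha', rfl⟩⟩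
        · obtain ⟨b', hb', rfl⟩ := mem_toZFSet_iff.1 hb
          obtain ⟨a, ha, rfl⟩ := h2 b' hb'
          exact ⟨_, toZFSet_mem_toZFSet_iff.2 ha, pair_mem_rs.2 ⟨ha, hb', rfl⟩⟩
        · obtain ⟨a1, ha1, rfl⟩ := mem_toZFSet_iff.1 ha
          obtain ⟨a2, ha2, rfl⟩ := mem_toZFSet_iff.1 ha'
          obtain ⟨b1, hb1, rfl⟩ := mem_toZFSet_iff.1 hb
          obtain ⟨b2, hb2, rfl⟩ := mem_toZFSet_iff.1 hb'
          rw [pair_mem_rs] at h4 h5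
          rw [hrm a1 ha1 a2 ha2, h4.2.2, h5.2.2, toZFSet_mem_toZFSet_iff]
      · rintro ⟨h4, h5, h6, h7⟩
        -- the values
        have hex : ∀ a : Ordinal.{u}, ∃ b : Ordinal.{u}, a < ξ → b < β ∧
            ZFSet.pair a.toZFSet b.toZFSet ∈ v 0 := by
          intro a
          by_cases ha : a < ξ
          · obtain ⟨b, hb, hab⟩ := h5 _ (toZFSet_mem_toZFSet_iff.2 ha)
            obtain ⟨b', hb', rfl⟩ := mem_toZFSet_iff.1 hb
            exact ⟨b', fun _ => ⟨hb', hab⟩⟩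
          · exact ⟨0, fun h => absurd h ha⟩
        choose k hk using hex
        have hkl : ∀ a < ξ, ∀ b < ξ, (k a < k b ↔ f a < f b) := by
          intro a ha b hb
          have h8 := h7 _ (toZFSet_mem_toZFSet_iff.2 ha) _ (toZFSet_mem_toZFSet_iff.2 hb) _
            (toZFSet_mem_toZFSet_iff.2 (hk a ha).1) _ (toZFSet_mem_toZFSet_iff.2 (hk b hb).1)
            (hk a ha).2 (hk b hb).2
          rw [hrm a ha b hb, toZFSet_mem_toZFSet_iff] at h8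
          exact h8.symm
        have hu : ∀ a < ξ, ∀ b < β, ZFSet.pair a.toZFSet b.toZFSet ∈ v 0 → b = k a := by
          intro a ha b hb hab
          have h8 := h7 _ (toZFSet_mem_toZFSet_iff.2 ha) _ (toZFSet_mem_toZFSet_iff.2 ha) _
            (toZFSet_mem_toZFSet_iff.2 hb) _ (toZFSet_mem_toZFSet_iff.2 (hk a ha).1)
            hab (hk a ha).2
          have h9 := h7 _ (toZFSet_mem_toZFSet_iff.2 ha) _ (toZFSet_mem_toZFSet_iff.2 ha) _
            (toZFSet_mem_toZFSet_iff.2 (hk a ha).1) _ (toZFSet_mem_toZFSet_iff.2 hb)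
            (hk a ha).2 hab
          rw [hrm a ha a ha, toZFSet_mem_toZFSet_iff] at h8 h9
          have h10 : ¬ b < k a := fun h => lt_irrefl _ (h8.2 h)
          have h11 : ¬ k a < b := fun h => lt_irrefl _ (h9.2 h)
          exact le_antisymm (not_lt.1 h11) (not_lt.1 h10)
        have hks : ∀ b < β, ∃ a < ξ, k a = b := by
          intro b hb
          obtain ⟨a, ha, hab⟩ := h6 _ (toZFSet_mem_toZFSet_iff.2 hb)
          obtain ⟨a', ha', rfl⟩ := mem_toZFSet_iff.1 ha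
          exact ⟨a', ha', (hu a' ha' b hb hab).symm⟩
        have hkf : ∀ a < ξ, k a = f a := by
          intro a ha
          refine le_antisymm ?_ ?_
          · refine cmp (κ := ξ) (f := k) (fun b hb => hks b (hb.trans (hk a ha).1)) f
              (fun x hx y hy hxy _ => (hkl x hx y hy).1 hxy)
              fun x hx hxa => (hkl x hx a ha).1 hxa
          · refine cmp (κ := ξ) (f := f) (fun b hb => h2 b (hb.trans (h1 a ha))) k
              (fun x hx y hy hxy _ => (hkl x hx y hy).2 hxy)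
              fun x hx hxa => (hkl x hx a ha).2 hxa
        rw [hgd]
        ext p
        rw [mem_rs]
        constructor
        · intro hp
          obtain ⟨a, ha, b, hb, rfl⟩ := h4 p hp
          obtain ⟨a', ha', rfl⟩ := mem_toZFSet_iff.1 ha
          obtain ⟨b', hb', rfl⟩ := mem_toZFSet_iff.1 hb
          exact ⟨a', ha', b', hb', by rw [hu a' ha' b' hb' hp, hkf a' ha'], rfl⟩
        · rintro ⟨a, ha, b, hb, rfl, rfl⟩
          rw [← hkf a ha]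
          exact (hk a ha).2
  rw [← hgd]
  exact hg

/-- the values of a definable function, extended by zero -/
theorem dr_cod {t : Ordinal.{u} → Ordinal.{u} → Ordinal.{u}}
    (ht : DO fun w => w 2 = t (w 0) (w 1)) {ξ β : Ordinal.{u}} {y : ZFSet.{u}}
    {f π : Ordinal.{u} → Ordinal.{u}} (hy : OD y) (h : Cod t ξ β y f)
    (h1 : ∀ a < ξ, π a = f a) (h2 : ∀ a, ¬ a < ξ → π a = 0) : DR fun a b => b = π a := by
  have hg := (od_cod ht hy h).dr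
  refine DO.congr (A := fun w => (ZFSet.pair (w 0).toZFSet (w 1).toZFSet ∈
    rs ξ β fun a b => b = f a) ∨ (¬ w 0 < ξ ∧ w 1 = 0))
    (hg.or ((DO.ltc 0 ξ).not.and (DO.eqc 1 0))) fun w => ?_
  show w 1 = π (w 0) ↔ _
  rw [pair_mem_rs]
  by_cases ha : w 0 < ξ
  · rw [h1 _ ha]
    constructor
    · intro hb
      exact Or.inl ⟨ha, by rw [hb]; exact h.1 _ ha, hb⟩
    · rintro (hb | hb)
      · exact hb.2.2
      · exact absurd ha hb.1
  · rw [h2 _ ha]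
    constructor
    · intro hb
      exact Or.inr ⟨ha, hb⟩
    · rintro (hb | hb)
      · exact absurd hb.1 ha
      · exact hb.2

/-- the order type of the values below `r` -/
theorem rk_eq {p k : Ordinal.{u} → Ordinal.{u}} {ν ζ r : Ordinal.{u}} (h1 : ∀ a < ν, k a < ζ)
    (h2 : ∀ b < ζ, ∃ a < ν, k a = b) (h3 : ∀ a < ν, ∀ b < ν, (k a < k b ↔ p a < p b))
    (h4 : ∀ a < ν, p a < r) : Rk p ν r = ζ := by
  obtain ⟨Y, hY⟩ : ∃ Y : Set Ordinal.{u}, Y = {z | z < r ∧ ∃ j < ν, z = p j} := ⟨_, rfl⟩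
  have hch : ∀ b : Ordinal.{u}, ∃ a : Ordinal.{u}, b < ζ → a < ν ∧ k a = b := by
    intro b
    by_cases hb : b < ζ
    · obtain ⟨a, ha, h⟩ := h2 b hb
      exact ⟨a, fun _ => ⟨ha, h⟩⟩
    · exact ⟨0, fun h => absurd h hb⟩
  choose q hq using hch
  have key : ∀ j < ν, nth Y (k j) (p j) := by
    intro j hj
    refine ⟨by rw [hY]; exact ⟨h4 j hj, j, hj, rfl⟩, fun b => p (q b), fun x y hxy hy => ?_,
      fun x hx => ?_, fun y hy hyj => ?_⟩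
    · obtain ⟨hx1, hx2⟩ := hq x (hxy.trans (hy.trans (h1 j hj)))
      obtain ⟨hy1, hy2⟩ := hq y (hy.trans (h1 j hj))
      refine (h3 _ hx1 _ hy1).1 ?_
      rw [hx2, hy2]
      exact hxy
    · obtain ⟨hx1, hx2⟩ := hq x (hx.trans (h1 j hj))
      refine ⟨by rw [hY]; exact ⟨h4 _ hx1, _, hx1, rfl⟩, (h3 _ hx1 _ hj).1 ?_⟩
      rw [hx2]
      exact hx
    · rw [hY] at hy
      obtain ⟨-, i, hi, rfl⟩ := hy
      have h5 : k i < k j := (h3 i hi j hj).2 hyj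
      refine ⟨k i, h5, ?_⟩
      obtain ⟨hx1, hx2⟩ := hq (k i) (h1 i hi)
      refine le_antisymm (not_lt.1 fun h => ?_) (not_lt.1 fun h => ?_)
      · have := (h3 _ hi _ hx1).2 h
        rw [hx2] at this
        exact lt_irrefl _ this
      · have := (h3 _ hx1 _ hi).2 h
        rw [hx2] at this
        exact lt_irrefl _ this
  obtain ⟨-, hcmp, -, -⟩ := All.vh Y
  have hiff : ∀ i, (∃ z, nth Y i z) ↔ i < ζ := by
    intro i
    constructor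
    · rintro ⟨z, hz⟩
      have hzY : z ∈ Y := hz.1
      rw [hY] at hzY
      obtain ⟨-, j, hj, rfl⟩ := hzY
      by_contra hn
      have h5 : k j < i := (h1 j hj).trans_le (not_lt.1 hn)
      exact lt_irrefl _ ((hcmp _ _ _ _ (key j hj) hz).1 h5)
    · intro hi
      obtain ⟨j, hj, rfl⟩ := h2 i hi
      exact ⟨_, key j hj⟩
  unfold Rk
  rw [← hY]
  have h5 : {i | ¬ ∃ z, nth Y i z} = Ici ζ := by
    ext i
    rw [mem_ofPred_eq, hiff, mem_Ici, not_lt]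
  rw [h5]
  exact csInf_Ici

theorem X : T_HS.{u} := by
  intro K hKr hK hV
  have hlim : IsSuccLimit K.ord := Cardinal.isSuccLimit_ord hKr.1
  obtain ⟨C, e, hC, he1, he2, he3⟩ := hV
  obtain ⟨t, ht, hti, htl⟩ := All.pr.{u}
  have htK : ∀ a < K.ord, ∀ b < K.ord, t a b < K.ord := htl K hK.le
  obtain ⟨Z, hZ⟩ : ∃ Z : Set Ordinal.{u}, Z = {z | z < K.ord ∧ ∃ β f, Cod t K.ord β (e z) f} :=
    ⟨_, rfl⟩
  -- the functions
  have hex : ∀ z : Ordinal.{u}, ∃ (β : Ordinal.{u}) (f π : Ordinal.{u} → Ordinal.{u}),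
      (DR fun a b => b = π a) ∧ (z ∈ Z → Cod t K.ord β (e z) f ∧ ∀ a < K.ord, π a = f a) := by
    intro z
    by_cases hz : z ∈ Z
    · have hz' := hz
      rw [hZ] at hz'
      obtain ⟨β, f, h⟩ := hz'.2
      classical
      refine ⟨β, f, fun a => if a < K.ord then f a else 0, ?_, fun _ => ⟨h, fun a ha => if_pos ha⟩⟩
      exact dr_cod ht (he1 z).1.od h (fun a ha => if_pos ha) fun a ha => if_neg ha
    · exact ⟨0, id, fun _ => 0, DO.eqc 1 0, fun h => absurd h hz⟩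
  choose ρ f π hπ hf using hex
  -- the closing functions
  have hex0 : ∀ z : Ordinal.{u}, ∃ b : Ordinal.{u}, b < K.ord ∧ (z < K.ord → z ∉ Z →
      ∀ ξ < K.ord, b ≤ ξ → (∀ a < ξ, ∀ b < ξ, t a b < ξ) →
        ¬ ∃ β g, Cod t ξ β (e z ∩ ξ.toZFSet) g) := by
    intro z
    by_cases hz : z < K.ord ∧ z ∉ Z
    · obtain ⟨b, hb, h⟩ := nonZ (t := t) hK hKr (e z) (fun h => hz.2 (by
        rw [hZ]; exact ⟨hz.1, h⟩))
      exact ⟨b, hb, fun _ _ => h⟩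
    · exact ⟨0, hlim.bot_lt, fun h1 h2 => absurd ⟨h1, h2⟩ hz⟩
  choose b0 hb0 hb0' using hex0
  obtain ⟨G, hG1, hG2⟩ := bd3 hKr (fun x y _ => max (t x y) (b0 x)) fun x hx y hy z _ =>
    max_lt (htK x hx y hy) (hb0 x)
  have hE := All.ve K hKr hK G hG1
  refine ⟨π, ρ, C ∩ {x | 0 < x ∧ ∀ y < x, G y < x}, hπ, clb_inter hK hKr hC hE, ?_⟩
  rintro ν ⟨hνC, -, hνG⟩ hνK ζ hζ h0
  have hcl : ∀ x < ν, ∀ y < ν, t x y < ν ∧ b0 x < ν := by
    intro x hx y hy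
    have hw : max x y < ν := max_lt hx hy
    have h1 := hG2 _ (hw.trans hνK) x (le_max_left _ _) y (le_max_right _ _) x (le_max_left _ _)
    have h2 := h1.trans (hνG _ hw)
    exact ⟨(le_max_left _ _).trans_lt h2, (le_max_right _ _).trans_lt h2⟩
  have htν : ∀ a < ν, ∀ b < ν, t a b < ν := fun a ha b hb => (hcl a ha b hb).1
  obtain ⟨y, k, hy, hyν, hk⟩ := code_of_lt ht hti htν h0 hζ
  obtain ⟨z, hz, rfl⟩ := he3 ν hνC hνK y hy hyν
  have hzZ : z ∈ Z := by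
    by_contra hn
    exact hb0' z (hz.trans hνK) hn ν hνK (hcl z hz z hz).2.le htν ⟨ζ, k, hk⟩
  obtain ⟨hf1, hf2⟩ := hf z hzZ
  refine ⟨z, hz, rk_eq (k := k) hk.1 hk.2.1 (fun a ha b hb => ?_) fun a ha => ?_⟩
  · rw [← hk.2.2 a ha b hb, hf2 a (ha.trans hνK), hf2 b (hb.trans hνK),
      ← hf1.2.2 a (ha.trans hνK) b (hb.trans hνK), ZFSet.mem_inter]
    exact ⟨fun h => h.1, fun h => ⟨h, toZFSet_mem_toZFSet_iff.2 (htν a ha b hb)⟩⟩
  · rw [hf2 a (ha.trans hνK)]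
    exact hf1.1 a (ha.trans hνK)

end Pool.Agent.H90.HDA.HS
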