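import Pool.Agent.H90.HDA.WZ

/-!
# MP_e37c09_lc, module NM: the measure at `K`
-/

set_option autoImplicit false

open Ordinal Cardinal Order Set
open scoped ZFSet

universe u

namespace Pool.Agent.H90.HDA.NM

open _root_.HD Pool.Agent.H90.HDA.WZ

theorem X (hWH : T_WH.{u}) : T_NM.{u} := by
  intro en hen t X K T g c ht hX hKr hK hLM hat
  have hcof : ℵ₀ < K.ord.cof := by rw [hKr.cof_ord]; exact hK
  have hlt : ∀ γ ∈ T, γ < K.ord → g γ < K.ord := fun γ h1 h2 => (hLM.1.lt γ h1 h2).2.1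
  refine nme_of hen ht hX hK.le le_rfl (Cardinal.isSuccLimit_ord hKr.1) hcof hLM.1
    (hWH en hen t X K.ord T g c ht hX hcof hLM) hat.1 (ult_K hen ht hK.le hlt hat) ?_
  intro R hR hsec hP
  classical
  have hch : ∀ γ : Ordinal.{u}, ∃ a : Ordinal.{u}, (∃ a < γ, ¬ R a (g γ)) →
      a < γ ∧ ¬ R a (g γ) := by
    intro γ
    by_cases h : ∃ a < γ, ¬ R a (g γ)
    · obtain ⟨a, h1, h2⟩ := h
      exact ⟨a, fun _ => ⟨h1, h2⟩⟩
    · exact ⟨0, fun h' => absurd h' h⟩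
  choose h hh using hch
  obtain ⟨a, ha, hp⟩ := All.vd om K hKr hK _ h hP fun b hb _ _ => (hh b hb.2).1
  refine hsec a ha (hp.mono ?_)
  rintro b _ ⟨⟨hb1, hb2⟩, rfl⟩ _
  exact ⟨hb1, (hh b hb2).2⟩

end Pool.Agent.H90.HDA.NM
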