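import Pool.Agent.H90.HDA.WZ
import Pool.Agent.H33.HD.VD
import Pool.Agent.H54.CL.Law

/-!
# MP_e37c09_lc, module WN2: the measures at almost all `ν`
-/

set_option autoImplicit false

open Ordinal Cardinal Order Set
open scoped ZFSet

universe u

namespace Pool.Agent.H90.HDA.WN2

open _root_.HD Pool.Agent.H90.HDA.WZ Pool.Agent.H54.CL

theorem X (hWH : T_WH.{u}) (hVQ : T_VQ.{u}) (hNR : T_NR.{u}) : T_WN2.{u} := by
  intro en hen t X K lam Q f T g c ht hX hKr hK hVF hEQ hLM hat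
  have hKlim : IsSuccLimit K.ord := Cardinal.isSuccLimit_ord hKr.1
  have hlt : ∀ γ ∈ T, γ < K.ord → g γ < K.ord := fun γ h1 h2 => (hLM.1.lt γ h1 h2).2.1
  have hultK := ult_K hen ht hK.le hlt hat
  obtain ⟨C0, hC0, hC0'⟩ := hVQ K lam Q f hKr hK hVF hEQ
  have hdsQ : ∀ ζ, DS {b | Q (f ζ) b} := fun ζ => DO.sect1 hEQ.dr (f ζ)
  have huniv : Clb K.ord univ := ⟨fun a ha => ⟨succ a, hKlim.succ_lt ha, lt_succ a, trivial⟩,
    fun _ _ _ _ => trivial⟩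
  -- the first family of clubs
  have h1 : ∀ ζ : Ordinal.{u}, ∃ C : Set Ordinal.{u}, Clb K.ord C ∧ ∀ ν ∈ C, ν < K.ord →
      ℵ₀ < ν.cof → ¬ (Pos om ν {γ | γ ∈ Tc en t T g c ∧ Q (f ζ) (g γ)} ∧
        Pos om ν {γ | γ ∈ Tc en t T g c ∧ ¬ Q (f ζ) (g γ)}) := by
    intro ζ
    by_cases h : Pos om K.ord {γ | γ ∈ Tc en t T g c ∧ Q (f ζ) (g γ)}
    · have h2 : ¬ Pos om K.ord {γ | γ ∈ Tc en t T g c ∧ ¬ Q (f ζ) (g γ)} := fun h3 =>
        hultK _ (hdsQ ζ) ⟨h, h3⟩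
      obtain ⟨C, hC, hC'⟩ := hNR K hKr hK _ h2
      exact ⟨C, hC, fun ν hν hνK hcof h3 => hC' ν hν hνK hcof h3.2⟩
    · obtain ⟨C, hC, hC'⟩ := hNR K hKr hK _ h
      exact ⟨C, hC, fun ν hν hνK hcof h3 => hC' ν hν hνK hcof h3.1⟩
  choose C1 hC1 hC1' using h1
  -- the second family of clubs
  have h2 : ∀ ζ : Ordinal.{u}, ∃ (C : Set Ordinal.{u}) (a : Ordinal.{u}), Clb K.ord C ∧
      a < K.ord ∧ ∀ ν ∈ C, ν < K.ord → ℵ₀ < ν.cof →
        ¬ Pos om ν {γ | γ ∈ Tc en t T g c ∧ ∃ a < γ, ¬ Q (f ζ) (t a (g γ))} ∨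
        ¬ Pos om ν {γ | γ ∈ Tc en t T g c ∧ Q (f ζ) (t a (g γ))} := by
    intro ζ
    by_cases h : Pos om K.ord {γ | γ ∈ Tc en t T g c ∧ ∃ a < γ, ¬ Q (f ζ) (t a (g γ))}
    · classical
      have hch : ∀ γ : Ordinal.{u}, ∃ a : Ordinal.{u}, (∃ a < γ, ¬ Q (f ζ) (t a (g γ))) →
          a < γ ∧ ¬ Q (f ζ) (t a (g γ)) := by
        intro γ
        by_cases h : ∃ a < γ, ¬ Q (f ζ) (t a (g γ))
        · obtain ⟨a, h1, h2⟩ := h
          exact ⟨a, fun _ => ⟨h1, h2⟩⟩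
        · exact ⟨0, fun h' => absurd h' h⟩
      choose k hk using hch
      obtain ⟨a, ha, hp⟩ := All.vd om K hKr hK _ k h fun b hb _ _ => (hk b hb.2).1
      have hp' : Pos om K.ord {γ | γ ∈ Tc en t T g c ∧ ¬ Q (f ζ) (t a (g γ))} := by
        refine hp.mono ?_
        rintro b _ ⟨⟨hb1, hb2⟩, rfl⟩ _
        exact ⟨hb1, (hk b hb2).2⟩
      have hds : DS {b | Q (f ζ) (t a b)} := by
        refine DO.ex (R := fun p w => p = t a (w 0) ∧ Q (f ζ) p) ?_ |>.congr fun w => ?_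
        · refine DO.and ?_ ((hdsQ ζ).s1 (X := fun p => Q (f ζ) p) 0)
          refine DO.sub (R := fun a w => w 0 = t a (w 1)) a ?_
          exact (ht.dfn.ren fun n => if n = 0 then 0 else if n = 1 then 2 else 1).congr
            fun w => by simp
        · constructor
          · intro h
            exact ⟨_, rfl, h⟩
          · rintro ⟨p, rfl, h⟩
            exact h
      have h3 : ¬ Pos om K.ord {γ | γ ∈ Tc en t T g c ∧ Q (f ζ) (t a (g γ))} := fun h4 =>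
        hultK _ hds ⟨h4, hp'⟩
      obtain ⟨C, hC, hC'⟩ := hNR K hKr hK _ h3
      exact ⟨C, a, hC, ha, fun ν hν hνK hcof => Or.inr (hC' ν hν hνK hcof)⟩
    · obtain ⟨C, hC, hC'⟩ := hNR K hKr hK _ h
      exact ⟨C, 0, hC, hKlim.bot_lt, fun ν hν hνK hcof => Or.inl (hC' ν hν hνK hcof)⟩
  choose C2 aa hC2 haa hC2' using h2
  obtain ⟨G, hG1, hG2⟩ := bd3 hKr (fun x y _ => max (t x y) (max (aa x) (succ x)))
    fun x hx y hy z _ => max_lt (ht.lt K hK.le x hx y hy) (max_lt (haa x) (hKlim.succ_lt hx))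
  have hE := All.ve K hKr hK G hG1
  have hD1 := Pool.Agent.H33.HD.VD.diag hKr hK C1 fun a _ => hC1 a
  have hD2 := Pool.Agent.H33.HD.VD.diag hKr hK C2 fun a _ => hC2 a
  refine ⟨(C0 ∩ {x | 0 < x ∧ ∀ a < x, x ∈ C1 a}) ∩ ({x | 0 < x ∧ ∀ a < x, x ∈ C2 a} ∩
    {x | 0 < x ∧ ∀ y < x, G y < x}), clb_inter hK hKr (clb_inter hK hKr hC0 hD1)
    (clb_inter hK hKr hD2 hE), ?_⟩
  rintro ν ⟨⟨hν0, -, hν1⟩, ⟨-, hν2⟩, h0, hνG⟩ hνK hcof hLMν hpos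
  -- closure
  have hcl : ∀ x < ν, ∀ y < ν, t x y < ν ∧ aa x < ν ∧ succ x < ν := by
    intro x hx y hy
    have hw : max x y < ν := max_lt hx hy
    have h1 := hG2 _ (hw.trans hνK) x (le_max_left _ _) y (le_max_right _ _) x (le_max_left _ _)
    have h2 := h1.trans (hνG _ hw)
    exact ⟨(le_max_left _ _).trans_lt h2,
      ((le_max_left _ _).trans (le_max_right _ _)).trans_lt h2,
      ((le_max_right _ _).trans (le_max_right _ _)).trans_lt h2⟩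
  have hlim : IsSuccLimit ν := by
    rw [Ordinal.isSuccLimit_iff, Order.isSuccPrelimit_iff_succ_lt]
    exact ⟨h0.ne', fun y hy => (hcl y hy y hy).2.2⟩
  have hltν : ∀ γ ∈ T, γ < ν → g γ < ν := fun γ h1 h2 => (hLMν.1.lt γ h1 h2).2.1
  refine nme_of hen ht hX hK.le hνK.le hlim hcof hLMν.1
    (hWH en hen t X ν T g c ht hX hcof hLMν) hpos ?_ ?_
  · intro Y hY
    obtain ⟨ζ, hζ, hζY⟩ := hC0' ν hν0 hνK Y hY
    rintro ⟨h3, h4⟩
    refine hC1' ζ ν (hν1 ζ hζ) hνK hcof ⟨h3.mono fun γ hγ h5 _ => ⟨h5.1, ?_⟩,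
      h4.mono fun γ hγ h5 _ => ⟨h5.1, fun h6 => h5.2 ?_⟩⟩
    · exact (hζY _ (hltν γ h5.1.1 hγ)).2 h5.2
    · exact (hζY _ (hltν γ h5.1.1 hγ)).1 h6
  · intro R hR hsec hP
    obtain ⟨ζ, hζ, hζY⟩ := hC0' ν hν0 hνK _ (ds_rel ht hR)
    have hQR : ∀ a < ν, ∀ b < ν, (Q (f ζ) (t a b) ↔ R a b) := fun a ha b hb =>
      (hζY _ (hcl a ha b hb).1).trans (mem_rel ht a b)
    have haν : aa ζ < ν := (hcl ζ hζ ζ hζ).2.1
    rcases hC2' ζ ν (hν2 ζ hζ) hνK hcof with h3 | h3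
    · refine h3 (hP.mono fun γ hγ h4 _ => ⟨h4.1, ?_⟩)
      obtain ⟨h5, a, ha, h6⟩ := h4
      exact ⟨a, ha, fun h7 => h6 ((hQR a (ha.trans hγ) _ (hltν γ h5.1 hγ)).1 h7)⟩
    · refine null_union All.va hcof h3 (hsec (aa ζ) haν) ((show Pos om ν (Tc en t T g c) from
        hpos).mono fun γ hγ h4 _ => ?_)
      by_cases h5 : R (aa ζ) (g γ)
      · exact Or.inl ⟨h4, (hQR _ haν _ (hltν γ h4.1 hγ)).2 h5⟩
      · exact Or.inr ⟨h4, h5⟩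

end Pool.Agent.H90.HDA.WN2
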